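import Pool.Agent.Helper98.WF.St

/-! Module QA of project WF (MP_bae8ce_ag). -/

set_option autoImplicit false

open Polynomial

namespace Pool.Agent.Helper2.WF.M_QA

open Pool.Agent.Helper98.WF

theorem stQA (hGA : StGA) (hRHO : StRHO) (hTOR : StTOR) (hGEN : StGEN) : StQA := by
  intro p _ F E _ _ _ _ L d P S q hAlg hL hP hS hsym hTri a b ha hb had hbd
  have hfact : Fact (Irreducible P) := ⟨hP.2.1⟩
  obtain ⟨hd, h1, h2, h3, h4, h5, h6, h7, h8⟩ := hRHO F d P hP
  obtain ⟨-, -, ht, -⟩ := hTOR p F P hAlg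
  obtain ⟨⟨hL0, hL1, hLn⟩, hg2, -⟩ := hGEN F E L hL
  have hne : ∀ g : (AdjoinRoot P)ˣ, rho P (g : AdjoinRoot P) ≠ 0 := fun g h =>
    g.ne_zero ((h5 _).1 h)
  have hmem : ∀ c : F[X], c.natDegree < d → L c ∈ S := fun c hc => hS (hg2 d c hc)
  have key := hGA (AdjoinRoot P)ˣ E q (fun g => L (rho P (g : AdjoinRoot P))) ht hsym
    (by
      change L (rho P ((1 : (AdjoinRoot P)ˣ) : AdjoinRoot P)) = 0
      rw [Units.val_one, h4, hL1])
    (by
      intro g₁ g₂ g₃ g₄ hg
      have n1 := hne g₁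
      have n2 := hne g₂
      have n3 := hne g₃
      have n4 := hne g₄
      have d1 := h2 (g₁ : AdjoinRoot P)
      have d2 := h2 (g₂ : AdjoinRoot P)
      have d3 := h2 (g₃ : AdjoinRoot P)
      have d4 := h2 (g₄ : AdjoinRoot P)
      have e : AdjoinRoot.mk P (rho P (g₁ : AdjoinRoot P) * rho P (g₂ : AdjoinRoot P)) =
          AdjoinRoot.mk P (rho P (g₃ : AdjoinRoot P) * rho P (g₄ : AdjoinRoot P)) := by
        rw [map_mul, map_mul, h1, h1, h1, h1, ← Units.val_mul, hg, Units.val_mul]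
      have e1 : (rho P (g₁ : AdjoinRoot P) * rho P (g₂ : AdjoinRoot P)).natDegree < d + d :=
        natDegree_mul_le.trans_lt (by omega)
      have e2 : (rho P (g₃ : AdjoinRoot P) * rho P (g₄ : AdjoinRoot P)).natDegree < d + d :=
        natDegree_mul_le.trans_lt (by omega)
      obtain ⟨s, hs, hsd⟩ := h7 _ _ d hd e e1 e2
      have f1 := hL.mul _ _ n1 n2
      have f2 := hL.mul _ _ n3 n4
      by_cases hs0 : s = 0
      · rw [hs0, mul_zero, sub_eq_zero] at hs
        rw [hs, f2] at f1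
        have : L (rho P (g₁ : AdjoinRoot P)) + L (rho P (g₂ : AdjoinRoot P)) -
            L (rho P (g₃ : AdjoinRoot P)) - L (rho P (g₄ : AdjoinRoot P)) = 0 := by
          rw [← f1]
          abel
        rw [this]
        simp
      · have hx : L (rho P (g₁ : AdjoinRoot P)) + L (rho P (g₂ : AdjoinRoot P)) -
            L (rho P (g₃ : AdjoinRoot P)) - L (rho P (g₄ : AdjoinRoot P)) =
            L (rho P (g₁ : AdjoinRoot P) * rho P (g₂ : AdjoinRoot P)) -
            L (rho P (g₃ : AdjoinRoot P) * rho P (g₄ : AdjoinRoot P)) := by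
          rw [f1, f2]
          abel
        rw [hx]
        refine hTri _ (L (-s) - L (rho P (g₃ : AdjoinRoot P) * rho P (g₄ : AdjoinRoot P)))
          ⟨_, -s, _, mul_ne_zero n1 n2, neg_ne_zero.2 hs0, mul_ne_zero n3 n4, ?_, rfl, rfl, ?_, ?_⟩
        · rw [mul_neg, ← hs]
          ring
        · rw [f1, f2]
          exact S.sub_mem (S.add_mem (hmem _ d1) (hmem _ d2)) (S.add_mem (hmem _ d3) (hmem _ d4))
        · rw [f2, hLn]
          exact S.sub_mem (hmem _ hsd) (S.add_mem (hmem _ d3) (hmem _ d4)))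
  have ka := h8 a ha had
  have kb := h8 b hb hbd
  have := key (Units.mk0 _ ka) (Units.mk0 _ kb)
  change q (L (rho P (AdjoinRoot.mk P a))) (L (rho P (AdjoinRoot.mk P b))) = 0 at this
  rwa [h6 a had, h6 b hbd] at this

end Pool.Agent.Helper2.WF.M_QA
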