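import Pool.Agent.Helper98.WF.St

/-! Module QB of project WF (MP_bae8ce_ag). -/

set_option autoImplicit false

open Polynomial

namespace Pool.Agent.Helper2.WF.M_QB

open Pool.Agent.Helper98.WF

theorem lin_span {E : Type} [AddCommGroup E] [Module ℚ E] (l : E →ₗ[ℚ] ℚ) (s : Set E)
    (h : ∀ x ∈ s, l x = 0) (x : E) (hx : x ∈ Submodule.span ℚ s) : l x = 0 := by
  have h1 : Submodule.span ℚ s ≤ LinearMap.ker l :=
    Submodule.span_le.2 fun y hy => LinearMap.mem_ker.2 (h y hy)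
  exact LinearMap.mem_ker.1 (h1 hx)

theorem bil_span {E : Type} [AddCommGroup E] [Module ℚ E] (q : E →ₗ[ℚ] E →ₗ[ℚ] ℚ) (s t : Set E)
    (h : ∀ x ∈ s, ∀ y ∈ t, q x y = 0) (x : E) (hx : x ∈ Submodule.span ℚ s) (y : E)
    (hy : y ∈ Submodule.span ℚ t) : q x y = 0 := by
  have h1 : ∀ z ∈ s, q.flip y z = 0 := fun z hz => by
    rw [LinearMap.flip_apply]
    exact lin_span (q z) t (h z hz) y hy
  have h2 := lin_span (q.flip y) s h1 x hx
  rwa [LinearMap.flip_apply] at h2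

theorem sub_small {F : Type} [Field F] (d : ℕ) (P P' : F[X]) (h : PrD d P) (h' : PrD d P')
    (hne : P' ≠ P) : P' - P ≠ 0 ∧ (P' - P).natDegree < d := by
  have h0 : P' - P ≠ 0 := sub_ne_zero.2 hne
  refine ⟨h0, ?_⟩
  have h1 : degree (P' - P) < degree P' := by
    refine degree_sub_lt_left ?_ h'.1.ne_zero ?_
    · rw [degree_eq_natDegree h'.1.ne_zero, degree_eq_natDegree h.1.ne_zero, h.2.2, h'.2.2]
    · rw [h.1.leadingCoeff, h'.1.leadingCoeff]
  have h2 := natDegree_lt_natDegree h0 h1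
  rwa [h'.2.2] at h2

theorem stQB (hRHO : StRHO) (hTOR : StTOR) (hGEN : StGEN) : StQB := by
  intro p _ F E _ _ _ _ L d P T q hAlg hL hP hT hsym hTri hq
  have hfact : Fact (Irreducible P) := ⟨hP.2.1⟩
  obtain ⟨hd, h1, h2, h3, h4, h5, h6, h7, h8⟩ := hRHO F d P hP
  obtain ⟨-, -, -, ht⟩ := hTOR p F P hAlg
  obtain ⟨⟨hL0, hL1, hLn⟩, hg2, -, -, -, hg6, -⟩ := hGEN F E L hL
  obtain ⟨hS, hTS⟩ := hg6 d T
  have hne : ∀ g : (AdjoinRoot P)ˣ, rho P (g : AdjoinRoot P) ≠ 0 := fun g h =>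
    g.ne_zero ((h5 _).1 h)
  have hmem : ∀ c : F[X], c.natDegree < d → L c ∈ VT L d T := fun c hc => hS (hg2 d c hc)
  have q0 : ∀ x ∈ Sm L d, ∀ y ∈ Sm L d, q x y = 0 := by
    intro x hx y hy
    refine bil_span q _ _ ?_ x hx y hy
    rintro x ⟨a, ha, had, rfl⟩ y ⟨b, hb, hbd, rfl⟩
    exact hq a b ha hb had hbd
  -- the basic relation
  have QF : ∀ A C : F[X], A ≠ 0 → C ≠ 0 → AdjoinRoot.mk P A = AdjoinRoot.mk P C →
      A.natDegree < d + d → C.natDegree < d + d → L A ∈ VT L d T → L C ∈ VT L d T →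
      q (L A - L C) (L A - L C) = 0 := by
    intro A C hA hC e eA eC mA mC
    obtain ⟨s, hs, hsd⟩ := h7 A C d hd e eA eC
    by_cases hs0 : s = 0
    · rw [hs0, mul_zero, sub_eq_zero] at hs
      rw [hs, sub_self]
      simp
    · refine hTri _ (L (-s) - L C) ⟨A, -s, C, hA, neg_ne_zero.2 hs0, hC, ?_, rfl, rfl, ?_, ?_⟩
      · rw [mul_neg, ← hs]
        ring
      · exact (VT L d T).sub_mem mA mC
      · rw [hLn]
        exact (VT L d T).sub_mem (hmem _ hsd) mC
  have hmkP : ∀ P' : F[X], AdjoinRoot.mk P (P' - P) = AdjoinRoot.mk P P' := fun P' => by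
    rw [map_sub, AdjoinRoot.mk_self, sub_zero]
  have exq : ∀ y w : E, q (y + w) (y + w) = q y y + 2 * q y w + q w w := by
    intro y w
    rw [map_add q y w, LinearMap.add_apply, map_add, map_add, hsym w y]
    ring
  have exn : ∀ y z : E, q (y + -z) (y + -z) = q y y - 2 * q y z + q z z := by
    intro y z
    rw [map_add q y (-z), map_neg q z, LinearMap.add_apply, LinearMap.neg_apply, map_add, map_add,
      map_neg, map_neg, hsym z y]
    ring
  have exm : ∀ y z w : E, q (y + -z) w = q y w - q z w := by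
    intro y z w
    rw [map_add q y (-z), map_neg q z, LinearMap.add_apply, LinearMap.neg_apply]
    ring
  -- step 1
  have s1 : ∀ P' ∈ T, q (L P' - L (P' - P)) (L P' - L (P' - P)) = 0 := by
    intro P' hP'
    obtain ⟨hPd, hPn⟩ := hT P' hP'
    obtain ⟨hm0, hmd⟩ := sub_small d P P' hP hPd hPn
    refine QF P' (P' - P) hPd.1.ne_zero hm0 (hmkP P').symm ?_ ?_ (hTS P' hP') (hmem _ hmd)
    · rw [hPd.2.2]
      omega
    · omega
  -- step 2
  have s2 : ∀ P' ∈ T, ∀ x ∈ Sm L d, q (L P' - L (P' - P)) x = 0 := by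
    intro P' hP'
    obtain ⟨hPd, hPn⟩ := hT P' hP'
    obtain ⟨hm0, hmd⟩ := sub_small d P P' hP hPd hPn
    have hπ := h8 (P' - P) hm0 hmd
    obtain ⟨π, hπe⟩ : ∃ π : (AdjoinRoot P)ˣ, (π : AdjoinRoot P) = AdjoinRoot.mk P (P' - P) :=
      ⟨Units.mk0 _ hπ, rfl⟩
    obtain ⟨l, hl⟩ : ∃ l : (AdjoinRoot P)ˣ → ℚ,
        ∀ g : (AdjoinRoot P)ˣ, l g = q (L P' - L (P' - P)) (L (rho P (g : AdjoinRoot P))) :=
      ⟨_, fun g => rfl⟩
    have hlπ : l π = q (L P' - L (P' - P)) (L (P' - P)) := by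
      rw [hl, hπe, h6 _ hmd]
    have hl1 : l 1 = 0 := by
      rw [hl, Units.val_one, h4, hL1, map_zero]
    have H : ∀ a b : (AdjoinRoot P)ˣ, l π + l a = l b + l (π * a * b⁻¹) := by
      intro a b
      have da := h2 (a : AdjoinRoot P)
      have db := h2 (b : AdjoinRoot P)
      have dc := h2 ((π * a * b⁻¹ : (AdjoinRoot P)ˣ) : AdjoinRoot P)
      have na := hne a
      have nb := hne b
      have nc := hne (π * a * b⁻¹)
      have eA := hL.mul P' (rho P (a : AdjoinRoot P)) hPd.1.ne_zero na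
      have eC := hL.mul _ _ nb nc
      have e := QF (P' * rho P (a : AdjoinRoot P))
        (rho P (b : AdjoinRoot P) * rho P ((π * a * b⁻¹ : (AdjoinRoot P)ˣ) : AdjoinRoot P))
        (mul_ne_zero hPd.1.ne_zero na) (mul_ne_zero nb nc) (by
          rw [map_mul, map_mul, h1, h1, h1, ← hmkP, ← hπe, ← Units.val_mul, ← Units.val_mul]
          congr 1
          rw [mul_comm b, inv_mul_cancel_right])
        (natDegree_mul_le.trans_lt (by rw [hPd.2.2]; omega))
        (natDegree_mul_le.trans_lt (by omega))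
        (by
          rw [eA]
          exact (VT L d T).add_mem (hTS P' hP') (hmem _ da))
        (by
          rw [eC]
          exact (VT L d T).add_mem (hmem _ db) (hmem _ dc))
      obtain ⟨w, hw⟩ : ∃ w : E, w = L (P' - P) + L (rho P (a : AdjoinRoot P)) -
          L (rho P (b : AdjoinRoot P)) -
          L (rho P ((π * a * b⁻¹ : (AdjoinRoot P)ˣ) : AdjoinRoot P)) := ⟨_, rfl⟩
      have hwS : w ∈ Sm L d := by
        rw [hw]
        exact (Sm L d).sub_mem ((Sm L d).sub_mem ((Sm L d).add_mem (hg2 d _ hmd) (hg2 d _ da))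
          (hg2 d _ db)) (hg2 d _ dc)
      have ew : L (P' * rho P (a : AdjoinRoot P)) -
          L (rho P (b : AdjoinRoot P) * rho P ((π * a * b⁻¹ : (AdjoinRoot P)ˣ) : AdjoinRoot P)) =
          (L P' - L (P' - P)) + w := by
        rw [eA, eC, hw]
        abel
      rw [ew, exq, s1 P' hP', q0 w hwS w hwS] at e
      have e2 : q (L P' - L (P' - P)) w = 0 := by linarith
      rw [hw, map_sub, map_sub, map_add, ← hlπ, ← hl, ← hl, ← hl] at e2
      linarith
    have H1 : ∀ a, l (π * a) = l π + l a := by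
      intro a
      have := H a 1
      rw [hl1, inv_one, mul_one] at this
      linarith
    have hadd : ∀ g h, l (g * h) = l g + l h := by
      intro g h
      have e1 := H (g * h * π⁻¹) g
      have e2 := H1 (g * h * π⁻¹)
      have e3 : π * (g * h * π⁻¹) = g * h := by
        rw [mul_comm π, inv_mul_cancel_right]
      have e4 : π * (g * h * π⁻¹) * g⁻¹ = h := by
        rw [e3, mul_comm g, mul_inv_cancel_right]
      rw [e4] at e1
      rw [e3] at e2
      linarith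
    have hl0 := ht l hadd
    intro x hx
    refine lin_span _ _ ?_ x hx
    rintro x ⟨a, ha, had, rfl⟩
    have := hl0 (Units.mk0 _ (h8 a ha had))
    rw [hl, Units.val_mk0, h6 a had] at this
    exact this
  -- step 3
  have s3 : ∀ P' ∈ T, ∀ P'' ∈ T, q (L P' - L (P' - P)) (L P'' - L (P'' - P)) = 0 := by
    intro P' hP' P'' hP''
    obtain ⟨hPd, hPn⟩ := hT P' hP'
    obtain ⟨hm0, hmd⟩ := sub_small d P P' hP hPd hPn
    obtain ⟨hPd2, hPn2⟩ := hT P'' hP''
    obtain ⟨hm02, hmd2⟩ := sub_small d P P'' hP hPd2 hPn2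
    have hπ := h8 (P' - P) hm0 hmd
    have hπ2 := h8 (P'' - P) hm02 hmd2
    obtain ⟨b, hb⟩ : ∃ b : AdjoinRoot P,
        b = AdjoinRoot.mk P (P' - P) / AdjoinRoot.mk P (P'' - P) := ⟨_, rfl⟩
    have hb0 : b ≠ 0 := by
      rw [hb]
      exact div_ne_zero hπ hπ2
    have nb : rho P b ≠ 0 := fun h => hb0 ((h5 _).1 h)
    have db := h2 b
    have eC := hL.mul P'' (rho P b) hPd2.1.ne_zero nb
    have e := QF P' (P'' * rho P b) hPd.1.ne_zero (mul_ne_zero hPd2.1.ne_zero nb)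
      (by
        rw [map_mul, h1, hb, ← hmkP P', ← hmkP P'', mul_div_cancel₀ _ hπ2])
      (by rw [hPd.2.2]; omega)
      (natDegree_mul_le.trans_lt (by rw [hPd2.2.2]; omega))
      (hTS P' hP')
      (by
        rw [eC]
        exact (VT L d T).add_mem (hTS P'' hP'') (hmem _ db))
    obtain ⟨w, hw⟩ : ∃ w : E, w = L (P' - P) - L (P'' - P) - L (rho P b) := ⟨_, rfl⟩
    have hwS : w ∈ Sm L d := by
      rw [hw]
      exact (Sm L d).sub_mem ((Sm L d).sub_mem (hg2 d _ hmd) (hg2 d _ hmd2)) (hg2 d _ db)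
    have ew : L P' - L (P'' * rho P b) =
        ((L P' - L (P' - P)) + -(L P'' - L (P'' - P))) + w := by
      rw [eC, hw]
      abel
    rw [ew, exq, exn, exm, q0 w hwS w hwS, s2 P' hP' w hwS, s2 P'' hP'' w hwS, s1 P' hP',
      s1 P'' hP''] at e
    linarith
  -- conclusion
  have hspan : VT L d T = Submodule.span ℚ
      ({x | ∃ a : F[X], a ≠ 0 ∧ a.natDegree < d ∧ L a = x} ∪ L '' T) := by
    rw [Submodule.span_union]
    rfl
  intro x hx y hy
  rw [hspan] at hx hy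
  refine bil_span q _ _ ?_ x hx y hy
  have hdec : ∀ P' : F[X], L P' = (L P' - L (P' - P)) + L (P' - P) := fun P' => by abel
  rintro x (⟨a, ha, had, rfl⟩ | ⟨P', hP', rfl⟩) y (⟨b, hb, hbd, rfl⟩ | ⟨P'', hP'', rfl⟩)
  · exact hq a b ha hb had hbd
  · obtain ⟨hPd2, hPn2⟩ := hT P'' hP''
    obtain ⟨hm02, hmd2⟩ := sub_small d P P'' hP hPd2 hPn2
    rw [hdec P'', map_add, hsym (L a) (L P'' - L (P'' - P)), s2 P'' hP'' _ (hg2 d a had),
      q0 _ (hg2 d a had) _ (hg2 d _ hmd2), add_zero]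
  · obtain ⟨hPd, hPn⟩ := hT P' hP'
    obtain ⟨hm0, hmd⟩ := sub_small d P P' hP hPd hPn
    rw [hdec P', map_add, LinearMap.add_apply, s2 P' hP' _ (hg2 d b hbd),
      q0 _ (hg2 d _ hmd) _ (hg2 d b hbd), add_zero]
  · obtain ⟨hPd, hPn⟩ := hT P' hP'
    obtain ⟨hm0, hmd⟩ := sub_small d P P' hP hPd hPn
    obtain ⟨hPd2, hPn2⟩ := hT P'' hP''
    obtain ⟨hm02, hmd2⟩ := sub_small d P P'' hP hPd2 hPn2
    rw [hdec P', hdec P'', map_add, map_add, LinearMap.add_apply, LinearMap.add_apply,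
      s3 P' hP' P'' hP'', s2 P' hP' _ (hg2 d _ hmd2), hsym (L (P' - P)) (L P'' - L (P'' - P)),
      s2 P'' hP'' _ (hg2 d _ hmd), q0 _ (hg2 d _ hmd) _ (hg2 d _ hmd2)]
    norm_num

end Pool.Agent.Helper2.WF.M_QB
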